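import Pool.Agent.EDG.StmtsC

/-!
# EDG, row COD
-/

set_option autoImplicit false

namespace Pool.Agent.EDG.H48

open Polynomial Pool.Agent.EDG.C

/-- The codes agree below the length of the common prefix. -/
theorem cod_agree {n : ℕ} (u v : Fin n → Bool) (i : Fin n) (hi : (i : ℕ) < lcp u v) :
    u i = v i := by
  classical
  by_contra hne
  have hsub : (Finset.univ : Finset (Fin n)).filter (fun i => ∀ j, j ≤ i → u j = v j) ⊆
      Finset.Iio i := by
    intro k hk
    rw [Finset.mem_filter] at hk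
    rw [Finset.mem_Iio]
    by_contra hik
    exact hne (hk.2 i (not_lt.1 hik))
  have hcard := Finset.card_le_card hsub
  rw [Fin.card_Iio] at hcard
  unfold lcp at hi
  have : ((Finset.univ : Finset (Fin n)).filter (fun i => ∀ j, j ≤ i → u j = v j)).card ≤ i := hcard
  have h2 : (i : ℕ) < ((Finset.univ : Finset (Fin n)).filter
      (fun i => ∀ j, j ≤ i → u j = v j)).card := by
    refine lt_of_lt_of_le hi (le_of_eq ?_)
    congr
  omega

theorem cod_le {n : ℕ} (u v : Fin n → Bool) : lcp u v ≤ n := by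
  classical
  unfold lcp
  refine (Finset.card_filter_le _ _).trans ?_
  rw [Finset.card_univ, Fintype.card_fin]

/-- One step of the expansion. -/
theorem cod_step (hprx : PrxStmt) (s : ℝ) (n : ℕ) (x y : ℂ) (hs : 4 ≤ s) (hn : 0 < n)
    (hx : (fc (-(s : ℂ) ^ 2))^[n] x = x) (hy : (fc (-(s : ℂ) ^ 2))^[n] y = y) (j : ℕ)
    (hj : j < n) (hc : code s n x ⟨j, hj⟩ = code s n y ⟨j, hj⟩) :
    s * ‖(fc (-(s : ℂ) ^ 2))^[j] x - (fc (-(s : ℂ) ^ 2))^[j] y‖ ≤
      ‖(fc (-(s : ℂ) ^ 2))^[j + 1] x - (fc (-(s : ℂ) ^ 2))^[j + 1] y‖ := by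
  have hx' := hprx s n x hs hn hx j
  have hy' := hprx s n y hs hn hy j
  rw [Function.iterate_succ_apply', Function.iterate_succ_apply']
  set a := (fc (-(s : ℂ) ^ 2))^[j] x
  set b := (fc (-(s : ℂ) ^ 2))^[j] y
  have h1 : fc (-(s : ℂ) ^ 2) a - fc (-(s : ℂ) ^ 2) b = (a - b) * (a + b) := by
    unfold fc
    ring
  rw [h1, norm_mul, mul_comm s]
  refine mul_le_mul_of_nonneg_left ?_ (norm_nonneg _)
  have hsn : ‖(2 * s : ℂ)‖ = 2 * s := by
    rw [norm_mul, Complex.norm_real, Complex.norm_ofNat, Real.norm_of_nonneg (by linarith)]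
  unfold code at hc
  simp only [decide_eq_decide] at hc
  by_cases ha : 0 ≤ a.re
  · have hb : 0 ≤ b.re := hc.1 ha
    have h2 := hx'.2.2.1 ha
    have h3 := hy'.2.2.1 hb
    have h4 : (2 * s : ℂ) = (a + b) - (a - s) - (b - s) := by ring
    have h5 : ‖(2 * s : ℂ)‖ ≤ ‖a + b‖ + ‖a - s‖ + ‖b - s‖ := by
      rw [h4]
      exact (norm_sub_le _ _).trans (add_le_add (norm_sub_le _ _) le_rfl)
    rw [hsn] at h5
    linarith
  · have hb : ¬ 0 ≤ b.re := fun h => ha (hc.2 h)
    have h2 := hx'.2.2.2 (not_le.1 ha)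
    have h3 := hy'.2.2.2 (not_le.1 hb)
    have h4 : (2 * s : ℂ) = (a + s) + (b + s) - (a + b) := by ring
    have h5 : ‖(2 * s : ℂ)‖ ≤ ‖a + s‖ + ‖b + s‖ + ‖a + b‖ := by
      rw [h4]
      exact (norm_sub_le _ _).trans (add_le_add (norm_add_le _ _) le_rfl)
    rw [hsn] at h5
    linarith

/-- Different periodic points with a long common prefix are close. -/
theorem cod (hprx : PrxStmt) : CodStmt := by
  intro s n x y hs hn hx hy hxy
  have key : ∀ L : ℕ, L ≤ n → (∀ (i : Fin n), (i : ℕ) < L → code s n x i = code s n y i) →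
      ∀ j : ℕ, j ≤ L → s ^ j * ‖x - y‖ ≤
        ‖(fc (-(s : ℂ) ^ 2))^[j] x - (fc (-(s : ℂ) ^ 2))^[j] y‖ := by
    intro L hL hc j
    induction j with
    | zero => intro _; simp
    | succ j ih =>
      intro hj
      have h1 := ih (by omega)
      have h2 := cod_step hprx s n x y hs hn hx hy j (by omega) (hc ⟨j, by omega⟩ (show j < L by omega))
      calc s ^ (j + 1) * ‖x - y‖ = s * (s ^ j * ‖x - y‖) := by ring
        _ ≤ s * ‖(fc (-(s : ℂ) ^ 2))^[j] x - (fc (-(s : ℂ) ^ 2))^[j] y‖ :=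
          mul_le_mul_of_nonneg_left h1 (by linarith)
        _ ≤ _ := h2
  have hpos : 0 < ‖x - y‖ := norm_pos_iff.2 (sub_ne_zero.2 hxy)
  constructor
  · intro heq
    have h1 := key n le_rfl (fun i _ => by rw [heq]) n le_rfl
    rw [hx, hy] at h1
    have h2 : (1 : ℝ) < s ^ n := one_lt_pow₀ (by linarith) (by omega)
    nlinarith
  · have h1 := key (lcp (code s n x) (code s n y)) (cod_le _ _)
      (fun i hi => cod_agree _ _ i hi) _ le_rfl
    have h2 := (hprx s n x hs hn hx (lcp (code s n x) (code s n y))).1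
    have h3 := (hprx s n y hs hn hy (lcp (code s n x) (code s n y))).1
    have h4 := norm_sub_le ((fc (-(s : ℂ) ^ 2))^[lcp (code s n x) (code s n y)] x)
      ((fc (-(s : ℂ) ^ 2))^[lcp (code s n x) (code s n y)] y)
    rw [mul_comm]
    linarith

end Pool.Agent.EDG.H48
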